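import Pool.Agent.Q147.Net18

/-!
# A non-classical symmetric net with a group transitive on joined and on non-joined pairs

An incidence structure is given by a type `P` of points, a type `Q` of blocks and the incidence
relation `I : P → Q → Prop`.
-/

set_option autoImplicit false

namespace Pool.Agent.Results.MP_36fbc5_co.NonClassical

/-- `(s, r, μ)`-nets: there are `s² μ` points; a block is determined by its set of points, which
has `s μ` elements; the blocks are divided into `r` (parallel) classes such that every point is on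
exactly one block of each class; two blocks of different classes meet in exactly `μ` points. -/
structure IsNet {P Q : Type} (I : P → Q → Prop) (s r μ : ℕ) : Prop where
  card_points : Nat.card P = s ^ 2 * μ
  card_block : ∀ b, Nat.card {p // I p b} = s * μ
  block_ext : ∀ b b', (∀ p, I p b ↔ I p b') → b = b'
  classes : ∃ c : Q → Fin r, (∀ i p, ∃! b, c b = i ∧ I p b) ∧
    ∀ b b', c b ≠ c b' → Nat.card {p // I p b ∧ I p b'} = μ

/-- Symmetric `(s, μ)`-nets: `(s, s μ, μ)`-nets whose dual is again an `(s, s μ, μ)`-net. -/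
def IsSymmetricNet {P Q : Type} (I : P → Q → Prop) (s μ : ℕ) : Prop :=
  IsNet I s (s * μ) μ ∧ IsNet (fun b p => I p b) s (s * μ) μ

/-- Two distinct points are joined if some block contains both. -/
def Joined {P Q : Type} (I : P → Q → Prop) (p q : P) : Prop :=
  p ≠ q ∧ ∃ b, I p b ∧ I q b

/-- The full automorphism group, as a group of permutations of the points. -/
def autGroup {P Q : Type} (I : P → Q → Prop) : Subgroup (Equiv.Perm P) where
  carrier := {σ | ∃ τ : Equiv.Perm Q, ∀ p b, I (σ p) (τ b) ↔ I p b}
  one_mem' := ⟨1, fun _ _ => Iff.rfl⟩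
  mul_mem' := by
    rintro σ σ' ⟨τ, h⟩ ⟨τ', h'⟩
    exact ⟨τ * τ', fun p b => (h _ _).trans (h' _ _)⟩
  inv_mem' := by
    rintro σ ⟨τ, h⟩
    refine ⟨τ⁻¹, fun p b => ?_⟩
    rw [← h]
    simp

/-- The classical symmetric nets: points are those of the affine space `K^d` over a finite field
`K`, `d ≥ 2`, blocks are the affine hyperplanes `{x | φ x = c}` which contain no translate of a
fixed line (with direction vector `v`), that is, with `φ v ≠ 0`. -/
def IsClassical {P Q : Type} (I : P → Q → Prop) : Prop :=
  ∃ (K : Type) (_ : Field K) (_ : Finite K) (d : ℕ) (_ : 2 ≤ d) (v : Fin d → K) (_ : v ≠ 0)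
    (e : P ≃ (Fin d → K)), ∀ H : Set (Fin d → K),
      (∃ b : Q, H = e '' {p | I p b}) ↔
        ∃ (φ : (Fin d → K) →ₗ[K] K) (c : K), φ v ≠ 0 ∧ H = {x | φ x = c}

lemma mul_inv_apply_eq {P : Type} {a b : Equiv.Perm P} {x y z : P} (h1 : b x = y)
    (h2 : a x = z) : (a * b⁻¹) y = z := by
  subst h1 h2
  simp

/-- There is a symmetric `(3, 2)`-net (18 points, 18 blocks) which is not classical, with an
automorphism group `G` that is transitive on the ordered pairs of joined points and transitive on
the ordered pairs of distinct non-joined points. -/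
theorem result :
    ∃ (P Q : Type) (I : P → Q → Prop), IsSymmetricNet I 3 2 ∧ ¬ IsClassical I ∧
      ∃ G : Subgroup (Equiv.Perm P), G ≤ autGroup I ∧
        (∀ p q p' q' : P, Joined I p q → Joined I p' q' → ∃ g ∈ G, g p = p' ∧ g q = q') ∧
        (∀ p q p' q' : P, p ≠ q → ¬ Joined I p q → p' ≠ q' → ¬ Joined I p' q' →
          ∃ g ∈ G, g p = p' ∧ g q = q') := by
  classical
  refine ⟨Fin 18, Fin 18, fun p b => Q147.Net18.inc p b = true, ⟨⟨?_, ?_, ?_, ?_⟩,
    ⟨?_, ?_, ?_, ?_⟩⟩, ?_, ?_⟩
  · simp
  · intro b
    rw [Nat.card_eq_fintype_card, Fintype.card_subtype]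
    simpa using Q147.Net18.card_block b
  · intro b b' h
    refine Q147.Net18.inc_inj b b' (fun p => ?_)
    have := h p
    cases h1 : Q147.Net18.inc p b <;> cases h2 : Q147.Net18.inc p b' <;> simp_all
  · refine ⟨Q147.Net18.cls, ?_, ?_⟩
    · intro i p
      obtain ⟨b, hb, hu⟩ := Q147.Net18.class_blocks i p
      exact ⟨b, hb, hu⟩
    · intro b b' h
      rw [Nat.card_eq_fintype_card, Fintype.card_subtype]
      simpa using Q147.Net18.meet_blocks b b' h
  · simp
  · intro p
    rw [Nat.card_eq_fintype_card, Fintype.card_subtype]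
    simpa using Q147.Net18.card_point p
  · intro b b' h
    refine Q147.Net18.inc_inj' b b' (fun p => ?_)
    have := h p
    cases h1 : Q147.Net18.inc b p <;> cases h2 : Q147.Net18.inc b' p <;> simp_all
  · refine ⟨Q147.Net18.cls, ?_, ?_⟩
    · intro i b
      obtain ⟨p, hp, hu⟩ := Q147.Net18.class_points i b
      exact ⟨p, hp, hu⟩
    · intro p p' h
      rw [Nat.card_eq_fintype_card, Fintype.card_subtype]
      simpa using Q147.Net18.meet_points p p' h
  · rintro ⟨K, _, _, d, hd, v, -, e, -⟩
    have h1 : Nat.card (Fin 18) = Nat.card (Fin d → K) := Nat.card_congr e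
    rw [Nat.card_fun] at h1
    simp only [Nat.card_eq_fintype_card, Fintype.card_fin] at h1
    set q := Nat.card K
    obtain ⟨k, rfl⟩ : ∃ k, d = k + 2 := ⟨d - 2, by omega⟩
    have hq : q ∣ 18 := ⟨q ^ (k + 1), by rw [h1]; ring⟩
    have hq2 : q ^ 2 ∣ 18 := ⟨q ^ k, by rw [h1]; ring⟩
    have hqle : q ≤ 4 := by
      have := Nat.le_of_dvd (by norm_num) hq2
      by_contra hc
      push Not at hc
      nlinarith
    interval_cases q
    · simp at hq
    · simp at h1
    · norm_num at hq2
    · have h9 : 3 ^ (k + 2) = 9 * 3 ^ k := by ring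
      rw [h9] at h1
      have h10 : 3 ^ k = 2 := by omega
      rcases k with _ | k
      · simp at h10
      · rw [pow_succ] at h10; omega
    · norm_num at hq2
  · have h0 : Q147.Net18.g0 ∈ autGroup (fun p b : Fin 18 => Q147.Net18.inc p b = true) :=
      ⟨Q147.Net18.b0, fun p b => by simp only [Q147.Net18.aut0]⟩
    have h1 : Q147.Net18.g1 ∈ autGroup (fun p b : Fin 18 => Q147.Net18.inc p b = true) :=
      ⟨Q147.Net18.b1, fun p b => by simp only [Q147.Net18.aut1]⟩
    refine ⟨autGroup _, le_rfl, ?_, ?_⟩
    · intro p q p' q' h h'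
      have hc := (Q147.Net18.joined_iff p q).1 h
      have hc' := (Q147.Net18.joined_iff p' q').1 h'
      refine ⟨Q147.Net18.elt 16 (Q147.Net18.code p' q') *
        (Q147.Net18.elt 16 (Q147.Net18.code p q))⁻¹,
        Subgroup.mul_mem _ (Q147.Net18.elt_mem _ h0 h1 _ _)
          (Subgroup.inv_mem _ (Q147.Net18.elt_mem _ h0 h1 _ _)), ?_, ?_⟩
      · have e1 := (Q147.Net18.run_joined p q hc).1
        have e2 := (Q147.Net18.run_joined p' q' hc').1
        rw [← Q147.Net18.elt_apply] at e1 e2
        exact mul_inv_apply_eq e1 e2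
      · have e1 := (Q147.Net18.run_joined p q hc).2
        have e2 := (Q147.Net18.run_joined p' q' hc').2
        rw [← Q147.Net18.elt_apply] at e1 e2
        exact mul_inv_apply_eq e1 e2
    · intro p q p' q' hne h hne' h'
      have hc : Q147.Net18.cls p = Q147.Net18.cls q := by
        by_contra hcon
        exact h ((Q147.Net18.joined_iff p q).2 hcon)
      have hc' : Q147.Net18.cls p' = Q147.Net18.cls q' := by
        by_contra hcon
        exact h' ((Q147.Net18.joined_iff p' q').2 hcon)
      refine ⟨Q147.Net18.elt 16 (Q147.Net18.code p' q') *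
        (Q147.Net18.elt 16 (Q147.Net18.code p q))⁻¹,
        Subgroup.mul_mem _ (Q147.Net18.elt_mem _ h0 h1 _ _)
          (Subgroup.inv_mem _ (Q147.Net18.elt_mem _ h0 h1 _ _)), ?_, ?_⟩
      · have e1 := (Q147.Net18.run_nonjoined p q hne hc).1
        have e2 := (Q147.Net18.run_nonjoined p' q' hne' hc').1
        rw [← Q147.Net18.elt_apply] at e1 e2
        exact mul_inv_apply_eq e1 e2
      · have e1 := (Q147.Net18.run_nonjoined p q hne hc).2
        have e2 := (Q147.Net18.run_nonjoined p' q' hne' hc').2
        rw [← Q147.Net18.elt_apply] at e1 e2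
        exact mul_inv_apply_eq e1 e2

end Pool.Agent.Results.MP_36fbc5_co.NonClassical
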