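import Mathlib
import Pool.Agent.Q274.Net.Def
import Pool.Agent.Q274.Net.Paley
import Pool.Agent.Q274.Net.Three

/-!
# Non-classical symmetric nets with groups transitive on joined pairs and on non-joined pairs (Q2)

The assertion of Q2 is false. The symmetric nets of the Hadamard matrices of Paley of order `q + 1`,
`q` a prime power congruent to `3` modulo `4`, are symmetric `(2, (q + 1) / 2)`-nets with an
automorphism group (`SL(2, q)` suffices) that is transitive on the unordered pairs of joined points and
on the pairs of distinct non-joined points, and they are not classical if `q + 1` is not a power of `2`,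
for example if `q = 11`. The same is true for the symmetric `(3, 2)`-net of the generalized Hadamard
matrix of order `6` over the group of order `3`.

Nets are incidence structures, see `Pool/Agent/Q274/Net/Def.lean` for all definitions.
-/

set_option autoImplicit false

namespace Pool.Agent.Results.MP_36fbc5_co.NonClassicalTransitiveNets

open Pool.Agent.Q274.Net

/-- Q2 (negated form). There are symmetric nets which are not classical and have a group of
automorphisms that is transitive on the pairs of joined points and on the pairs of distinct non-joined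
points: with `s = 2` and `μ = (q + 1) / 2` for every prime power `q` congruent to `3` modulo `4` such
that `q + 1` is not a power of `2`; in particular for infinitely many `μ`; and with `(s, μ) = (3, 2)`. -/
theorem result :
    (∀ q : ℕ, IsPrimePow q → q % 4 = 3 → (∀ k : ℕ, q + 1 ≠ 2 ^ k) →
      Counterexample 2 ((q + 1) / 2)) ∧
    {μ : ℕ | Counterexample 2 μ}.Infinite ∧
    Counterexample 3 2 := by
  refine ⟨fun q hq h4 h2 => paley hq h4 h2, ?_, three⟩
  have h0 : IsUnit ((3 : ℕ) : ZMod 8) := by decide
  have h1 : {p : ℕ | p.Prime ∧ (p : ZMod 8) = ((3 : ℕ) : ZMod 8)}.Infinite :=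
    Nat.infinite_setOfPred_prime_and_eq_mod (q := 8) h0
  have h2 : ({p : ℕ | p.Prime ∧ (p : ZMod 8) = ((3 : ℕ) : ZMod 8)} \ {3}).Infinite :=
    h1.sdiff (Set.finite_singleton 3)
  have h3 : ∀ p ∈ ({p : ℕ | p.Prime ∧ (p : ZMod 8) = ((3 : ℕ) : ZMod 8)} \ {3}),
      p % 8 = 3 ∧ p.Prime ∧ p ≠ 3 := by
    rintro p ⟨⟨hp, h8⟩, h9⟩
    refine ⟨?_, hp, h9⟩
    have := (ZMod.natCast_eq_natCast_iff' p 3 8).1 h8
    omega
  refine Set.Infinite.mono ?_ (h2.image (f := fun p => (p + 1) / 2) ?_)
  · rintro _ ⟨p, hp, rfl⟩
    obtain ⟨h8, hpp, hne⟩ := h3 p hp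
    refine paley hpp.isPrimePow (by omega) fun k hk => ?_
    rcases Nat.lt_or_ge k 3 with h | h
    · interval_cases k <;> simp at hk <;> omega
    · have : 8 ∣ p + 1 := by rw [hk]; exact pow_dvd_pow 2 h
      omega
  · intro p hp q hq h
    obtain ⟨h8, -, -⟩ := h3 p hp
    obtain ⟨h8', -, -⟩ := h3 q hq
    simp only at h
    omega

end Pool.Agent.Results.MP_36fbc5_co.NonClassicalTransitiveNets
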